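import Pool.Agent.N132.IXS.Defs
import Pool.Agent.N132.IX.Kimura
import Pool.Agent.N132.IX.Smash

/-!
# Comparison of the definitions
-/

open CategoryTheory AlgebraicGeometry Module Filter Topology
open scoped ENNReal

universe u v w

namespace Pool.Agent.N132.IXS

open Pool.Agent.H914 Pool.Agent.H914.VarClass Pool.Agent.H914.VarClass.Obj Pool.Agent.W492.BB
  Pool.Agent.Y133.Half Pool.Agent.N132

variable {k : Type u} [Field k] {𝒱 : VarClass k} {ops : CycleOps 𝒱}
  {W : WeilCohomology.{u, v} ops} (C : CycleTheory.{u, v, w} W) {X Y Z : 𝒱.Obj}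

/-- The other form of the structure. -/
noncomputable def conv : IX.CycleTheory.{u, v, w} W where
  toTheoryData := C.toTheoryData
  isTheory := C.isTheory
  hasIso := ⟨fun f g h1 h2 => C.push_one ⟨f, g, h1, h2⟩⟩
  mul_comm := C.mul_comm
  gr_zero := C.gr_zero
  gr_top := fun X i x hx hi => C.gr_top X i x hx hi
  cl := C.cl
  cl_mem := fun {X} _ _ h => (C.isClassMap X).mem h
  cl_pull := fun f z => (C.commutes f).pull z
  cl_push := fun f z => (C.commutes f).push z
  exists_point := fun X => by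
    obtain ⟨z, hz⟩ := (C.isClassMap X).exists_point
    exact ⟨z, ((C.isClassMap X).deg_eq z).symm.trans hz⟩

lemma numTriv_conv {x : C.A X} : ChowTheory.NumTriv x ↔
    IX.CycleTheory.NumTriv (C := conv C) x :=
  ⟨fun h y => ((C.isClassMap X).deg_eq _).symm.trans (h y),
    fun h y => ((C.isClassMap X).deg_eq _).trans (h y)⟩

lemma numRank_conv (X : 𝒱.Obj) : C.numRank X = (conv C).numRank X := by
  have h : Submodule.span W.K {x : C.A X | ChowTheory.NumTriv x} = (conv C).num X := by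
    refine le_antisymm (Submodule.span_le.2 fun x hx => (numTriv_conv C).1 hx) ?_
    exact fun x hx => Submodule.subset_span ((numTriv_conv C).2 hx)
  rw [ChowTheory.numRank, IX.CycleTheory.numRank, h]
  rfl

lemma ratio_conv (X : 𝒱.Obj) : C.ratio X = (conv C).ratio X := by
  rw [ChowTheory.ratio, numRank_conv]
  rfl

lemma composite_to {j n : ℕ} {y : C.A (pw X n)} (h : C.Composite X j n y) :
    IX.CycleTheory.Composite (conv C) X j n y := by
  induction h with
  | zero n y => exact IX.CycleTheory.Composite.zero (C := conv C) (X := X) n y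
  | succ j m n Γ hΓ y _ ih =>
    exact IX.CycleTheory.Composite.succ (C := conv C) (X := X) j m n Γ ((numTriv_conv C).1 hΓ) y ih

lemma composite_from {j n : ℕ} {y : (conv C).A (pw X n)}
    (h : IX.CycleTheory.Composite (conv C) X j n y) :
    ChowTheory.Composite C.toChowTheory X j n y := by
  induction h with
  | zero n y => exact ChowTheory.Composite.zero (C := C.toChowTheory) (X := X) n y
  | succ j m n Γ hΓ y _ ih =>
    exact ChowTheory.Composite.succ (C := C.toChowTheory) (X := X) j m n Γ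
      ((numTriv_conv C).2 hΓ) y ih

lemma composite_conv {j n : ℕ} {y : C.A (pw X n)} :
    C.Composite X j n y ↔ IX.CycleTheory.Composite (conv C) X j n y :=
  ⟨composite_to C, composite_from C⟩

lemma fil_conv (X : 𝒱.Obj) (j n : ℕ) : C.fil X j n = (conv C).fil X j n := by
  rw [ChowTheory.fil, IX.CycleTheory.fil]
  congr 1
  ext y
  exact composite_conv C

lemma mem_conv (X : 𝒱.Obj) (j n : ℕ) (x : C.A (pw X n)) :
    C.Mem X j n x ↔ x ∈ (conv C).fil X j n := by
  rw [ChowTheory.Mem, fil_conv]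
  rfl

lemma ncomp_conv {j m n : ℕ} {Γ : C.A ((pw X m).prod (pw X n))} :
    C.NComp X j m n Γ → IX.CycleTheory.NComp (conv C) X j m n Γ := by
  intro h
  induction h with
  | one m n Γ hΓ =>
    exact IX.CycleTheory.NComp.one (C := conv C) (X := X) m n Γ ((numTriv_conv C).1 hΓ)
  | succ j m n l Γ Δ _ hΔ ih =>
    exact IX.CycleTheory.NComp.succ (C := conv C) (X := X) j m n l Γ Δ ih ((numTriv_conv C).1 hΔ)

lemma xpow_conv {X : 𝒱.Obj} (x : C.A X) : ∀ j : ℕ, ChowTheory.xpow x j =
    IX.CycleTheory.xpow (C := conv C) x j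
  | 0 => rfl
  | j + 1 => by
    have h1 : ChowTheory.xpow x (j + 1) = C.mul (X := pw X (j + 1)) (C.up (fst (pw X j) X)
      (ChowTheory.xpow x j)) (C.up (snd (pw X j) X) x) := rfl
    rw [h1, xpow_conv x j]
    rfl

/-- **The index law.** -/
theorem index_final (C : CycleTheory.{u, v, w} W) (X : 𝒱.Obj) :
    C.IsMultiplicative X ∧
    ∃ N : ℕ∞, N ≠ 0 ∧ Tendsto (fun n => C.ratio (pw X n)) atTop (𝓝 N) ∧
      (N = 1 ↔ ∀ n, ∀ x : C.A (pw X n), ChowTheory.NumTriv x → x = 0) ∧
      ∀ d : ℕ, N = d → C.IsBounded X d ∧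
        ∀ n, ∀ x : C.A (pw X n), ChowTheory.NumTriv x → C.cl _ x = 0 := by
  obtain ⟨⟨h1, h2, h3, h4, h5⟩, N, h6, h7, h8, h9⟩ := IX.index_main (conv C) X
  refine ⟨⟨fun n x => ?_, fun n x => ?_, fun j n x hx => ?_, fun i j n x y hx hy => ?_,
    fun j m n Γ y hy => ?_, fun j m n Γ y hΓ hy => ?_⟩, N, h6, ?_, ?_, fun d hd => ?_⟩
  · rw [mem_conv, h1 n]; trivial
  · rw [mem_conv, h2 n, numTriv_conv]; rfl
  · rw [mem_conv] at hx ⊢; exact h3 j n hx
  · rw [mem_conv] at hx hy ⊢; exact h4 i j n x y hx hy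
  · rw [mem_conv] at hy ⊢; exact (h5 j m n Γ y hy).1
  · rw [mem_conv] at hy ⊢; exact (h5 j m n Γ y hy).2 ((numTriv_conv C).1 hΓ)
  · exact h7.congr fun n => (ratio_conv C _).symm
  · rw [h8]
    exact ⟨fun h n x hx => h n x ((numTriv_conv C).1 hx),
      fun h n x hx => h n x ((numTriv_conv C).2 hx)⟩
  · obtain ⟨a1, a2, a3, a4, c, a5, a6, a7, a8⟩ := h9 d hd
    refine ⟨⟨a1, fun n => ?_, fun m n Γ hΓ => a4 m n Γ (ncomp_conv C hΓ), c, a5, a6, fun j => ?_,
      fun j => ?_⟩, fun n x hx => a2 n x ((numTriv_conv C).1 hx)⟩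
    · rw [fil_conv]; exact a3 n
    · refine (a7 j).congr fun n => ?_
      rw [ChowTheory.grRatio, ChowTheory.filRank, ChowTheory.filRank, fil_conv, fil_conv,
        numRank_conv]
      rfl
    · rw [a8 j]
      exact ⟨fun h n => by rw [fil_conv]; exact h n, fun h n => by rw [← fil_conv]; exact h n⟩

/-- **The zero-infinity law for smash-nilpotence.** -/
theorem smash_final (C : CycleTheory.{u, v, w} W) (hC : C.SmashReduced) (X : 𝒱.Obj) :
    (∀ n, ∀ x : C.A (pw X n), ChowTheory.NumTriv x → x = 0) ∨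
      Tendsto (fun n => C.ratio (pw X n)) atTop (𝓝 ⊤) := by
  rcases IX.smash_law (conv C)
    (fun {X} x j hx => hC (X := X) x j ((xpow_conv C x j).trans hx)) X with h | h
  · exact Or.inl fun n x hx => h n x ((numTriv_conv C).1 hx)
  · exact Or.inr (h.congr fun n => (ratio_conv C _).symm)

/-- **The Schur finiteness law.** -/
theorem schur_final (C : CycleTheory.{u, v, w} W) (X : 𝒱.Obj) :
    Tendsto (fun n => C.ratio (pw X n)) atTop (𝓝 ⊤) ∨
      (∃ n : ℕ, ¬ LinearIndependent W.K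
        fun σ : Equiv.Perm (Fin (n + 1)) => C.graph (tau X n σ)) ∧
      (∀ n, ∀ x : C.A (pw X n), ChowTheory.NumTriv x → C.cl _ x = 0) ∧
      ∃ N : ℕ, 1 ≤ N ∧ Tendsto (fun n => C.ratio (pw X n)) atTop (𝓝 N) ∧
        ∀ m n Γ, C.NComp X N m n Γ → Γ = 0 := by
  rcases IX.schur_law (conv C) X with h | ⟨h1, h2, N, h3, h4, h5⟩
  · exact Or.inl (h.congr fun n => (ratio_conv C _).symm)
  · exact Or.inr ⟨h1, fun n x hx => h2 n x ((numTriv_conv C).1 hx), N, h3,
      h4.congr fun n => (ratio_conv C _).symm, fun m n Γ hΓ => h5 m n Γ (ncomp_conv C hΓ)⟩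

end Pool.Agent.N132.IXS
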