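import Pool.Agent.W492.BB.Defs
import Pool.Agent.Y133.Half.PwDefs

/-!
# Theories of algebraic cycles, numerical equivalence and composites
-/

open CategoryTheory AlgebraicGeometry Module Filter Topology
open scoped ENNReal

universe u v w

namespace Pool.Agent.N132.IXS

open Pool.Agent.H914 Pool.Agent.H914.VarClass Pool.Agent.H914.VarClass.Obj Pool.Agent.W492.BB
  Pool.Agent.Y133.Half

variable {k : Type u} [Field k]

/-- The formal properties of the Chow groups with coefficients in the field `K` of the varieties of
the class `𝒱`: commutative graded `K`-algebras `A(X)` with pull-backs and push-forwards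
(functoriality, projection formula, base change for projections, `f_* 1 = 1` for isomorphisms `f`),
`A^0(X) = K`, `A^i(X) = 0` for `i > dim X`, and a degree function `deg : A(X) → K`. -/
structure ChowTheory (𝒱 : VarClass k) (K : Type v) [Field K] extends TheoryData.{u, w, v} 𝒱 K where
  isTheory : IsTheory toTheoryData 1
  push_one : ∀ {X Y : 𝒱.Obj} (f : X ≅ Y), toTheoryData.down f.hom 1 = 1
  mul_comm : ∀ {X : 𝒱.Obj} (a b : A X), toTheoryData.mul a b = toTheoryData.mul b a
  gr_zero : ∀ (X : 𝒱.Obj) (x : A X), x ∈ gr X 0 → ∃ q : K, x = q • (1 : A X)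
  gr_top : ∀ (X : 𝒱.Obj) (i : ℤ) (x : A X), x ∈ gr X i → X.dim < i → x = 0
  /-- the degree of a class -/
  deg : ∀ X, A X → K

namespace ChowTheory

variable {𝒱 : VarClass k} {K : Type v} [Field K] (C : ChowTheory.{u, v, w} 𝒱 K)

variable {C} in
/-- The class `x` is numerically trivial. -/
def NumTriv {X : 𝒱.Obj} (x : C.A X) : Prop := ∀ y, C.deg X (C.mul x y) = 0

/-- The dimension of `A(X)` modulo numerical equivalence. -/
noncomputable def numRank (X : 𝒱.Obj) : ℕ :=
  finrank K (C.A X ⧸ Submodule.span K {x : C.A X | NumTriv x})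

/-- The dimension of `A(X)`, a natural number or infinity. -/
noncomputable def dim (X : 𝒱.Obj) : ℕ∞ := Cardinal.toENat (Module.rank K (C.A X))

/-- The ratio of the dimension of `A(X)` to its dimension modulo numerical equivalence. -/
noncomputable def ratio (X : 𝒱.Obj) : ℝ≥0∞ := C.dim X / C.numRank X

/-- `Composite C X j n y`: the class `y` on the power `X^(n+1)` is obtained from some class by
applying successively `j` numerically trivial correspondences between powers of `X`. -/
inductive Composite (X : 𝒱.Obj) : ℕ → ∀ n, C.A (pw X n) → Prop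
  | zero (n : ℕ) (y : C.A (pw X n)) : Composite X 0 n y
  | succ (j m n : ℕ) (Γ : C.A ((pw X m).prod (pw X n))) (hΓ : NumTriv Γ) (y : C.A (pw X m))
      (hy : Composite X j m y) : Composite X (j + 1) n (C.act Γ y)

/-- The filtration by composites: `C.fil X j n` is the subspace `F^j A(X^(n+1))` spanned by the
classes obtained by applying successively `j` numerically trivial correspondences. -/
noncomputable def fil (X : 𝒱.Obj) (j n : ℕ) : Submodule K (C.A (pw X n)) :=
  Submodule.span K {y | C.Composite X j n y}

/-- The class `x` on `X^(n+1)` lies in `F^j A(X^(n+1))`. -/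
def Mem (X : 𝒱.Obj) (j n : ℕ) (x : C.A (pw X n)) : Prop := x ∈ C.fil X j n

/-- The dimension of `F^j A(X^(n+1))`. -/
noncomputable def filRank (X : 𝒱.Obj) (j n : ℕ) : ℕ := finrank K (C.fil X j n)

/-- The ratio of the dimension of the `j`-th graded piece `F^j/F^(j+1)` of `A(X^(n+1))` to the
dimension of `A(X^(n+1))` modulo numerical equivalence. -/
noncomputable def grRatio (X : 𝒱.Obj) (j n : ℕ) : ℝ :=
  (C.filRank X j n - C.filRank X (j + 1) n) / C.numRank (pw X n)

/-- The composition of correspondences. -/
noncomputable def comp {X Y Z : 𝒱.Obj} (Γ : C.A (X.prod Y)) (Δ : C.A (Y.prod Z)) :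
    C.A (X.prod Z) :=
  C.down (prodMap (fst X Y) (𝟙 Z)) (C.mul (C.up (prodMap (snd X Y) (𝟙 Z)) Δ)
    (C.up (fst (X.prod Y) Z) Γ))

/-- `NComp C X j m n Γ`: the correspondence `Γ` from `X^(m+1)` to `X^(n+1)` is the composition of
`j` numerically trivial correspondences between powers of `X`. -/
inductive NComp (X : 𝒱.Obj) : ℕ → ∀ m n, C.A ((pw X m).prod (pw X n)) → Prop
  | one (m n : ℕ) (Γ : C.A ((pw X m).prod (pw X n))) (hΓ : NumTriv Γ) : NComp X 1 m n Γ
  | succ (j m n l : ℕ) (Γ : C.A ((pw X m).prod (pw X n))) (Δ : C.A ((pw X n).prod (pw X l)))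
      (hΓ : NComp X j m n Γ) (hΔ : NumTriv Δ) : NComp X (j + 1) m l (C.comp Γ Δ)

/-- The filtration by composites on the powers of `X` starts with the whole space and the
numerically trivial classes, it is descending, multiplicative and stable under correspondences,
and numerically trivial correspondences map each step to the next one. -/
structure IsMultiplicative (X : 𝒱.Obj) : Prop where
  zero : ∀ n x, C.Mem X 0 n x
  one : ∀ n x, C.Mem X 1 n x ↔ NumTriv x
  anti : ∀ j n x, C.Mem X (j + 1) n x → C.Mem X j n x
  mul : ∀ i j n x y, C.Mem X i n x → C.Mem X j n y → C.Mem X (i + j) n (C.mul x y)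
  act : ∀ j m n Γ y, C.Mem X j m y → C.Mem X j n (C.act Γ y)
  shift : ∀ j m n Γ y, NumTriv Γ → C.Mem X j m y → C.Mem X (j + 1) n (C.act Γ y)

/-- The `A(X^n)` are finite-dimensional, `F^d = 0` on all powers of `X`, every composition of `d`
numerically trivial correspondences between powers of `X` vanishes, and, for all `j`, the ratios of
the dimension of `F^j/F^(j+1)` to the dimension modulo numerical equivalence converge to an integer
`c j`; moreover `c 0 = 1`, `c 0 + ⋯ + c (d - 1) = d`, and `c j = 0` if and only if `F^j = 0` on all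
powers of `X`. -/
structure IsBounded (X : 𝒱.Obj) (d : ℕ) : Prop where
  finite : ∀ n, Module.Finite K (C.A (pw X n))
  fil_eq_bot : ∀ n, C.fil X d n = ⊥
  comp_eq_zero : ∀ m n Γ, C.NComp X d m n Γ → Γ = 0
  graded : ∃ c : ℕ → ℕ, c 0 = 1 ∧ ∑ j ∈ Finset.range d, c j = d ∧
    (∀ j, Tendsto (C.grRatio X j) atTop (𝓝 (c j))) ∧ ∀ j, c j = 0 ↔ ∀ n, C.fil X j n = ⊥

variable {C} in
/-- The external powers of a class: `xpow x j` is the class `x × ⋯ × x` (`j + 1` factors) on
`X^(j+1)`. -/
noncomputable def xpow {X : 𝒱.Obj} (x : C.A X) : ∀ j : ℕ, C.A (pw X j)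
  | 0 => x
  | j + 1 => C.mul (X := pw X (j + 1)) (C.up (fst (pw X j) X) (xpow x j))
      (C.up (snd (pw X j) X) x)

/-- No nonzero class is smash-nilpotent. This holds for the theory of the cycles modulo
smash-nilpotence. -/
def SmashReduced : Prop := ∀ {X : 𝒱.Obj} (x : C.A X) (j : ℕ), xpow x j = 0 → x = 0

/-- The graph of a morphism. -/
noncomputable def graph {X Y : 𝒱.Obj} (f : X ⟶ Y) : C.A (X.prod Y) :=
  C.down (Obj.lift (𝟙 X) f) 1

end ChowTheory

section Alg

variable {K : Type*} [Field K] {A : Type*} [Ring A] [Algebra K A] {B : Type*} [Ring B]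
  [Algebra K B] {H : Type*} [Ring H] [Algebra K H] {I : Type*} [Ring I] [Algebra K I]

/-- The class map `c` doubles the codimensions, the degree of a class is the trace of its image,
and some class has degree one. -/
structure IsClassMap (grA : ℤ → Submodule K A) (grH : ℕ → Submodule K H) (deg : A → K)
    (tr : H →ₗ[K] K) (c : A →ₐ[K] H) : Prop where
  mem : ∀ {i : ℕ} {z : A}, z ∈ grA i → c z ∈ grH (2 * i)
  deg_eq : ∀ z, deg z = tr (c z)
  exists_point : ∃ z, deg z = 1

/-- The class maps `c` and `d` are compatible with pull-backs and push-forwards. -/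
structure Commutes (pullA : B →ₐ[K] A) (pullH : I →ₐ[K] H) (pushA : A →ₗ[K] B)
    (pushH : H →ₗ[K] I) (c : A →ₐ[K] H) (d : B →ₐ[K] I) : Prop where
  pull : ∀ z, c (pullA z) = pullH (d z)
  push : ∀ z, d (pushA z) = pushH (c z)

end Alg

/-- A theory of algebraic cycles with coefficients in the coefficient field `K` of the Weil
cohomology theory `W`: a theory with the formal properties of the Chow groups with coefficients in
`K`, and cycle class maps `cl : A(X) → H(X)`, `K`-algebra homomorphisms compatible with pull-backs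
and push-forwards, mapping `A^i(X)` to `H^(2i)(X)`; the degree of a class is the trace of its
image, and some class on `X` has degree one. The intended examples are the cycles with coefficients
in `K` modulo rational equivalence (that is, `CH^*(X) ⊗ K`), or modulo any adequate equivalence
relation which is finer than homological equivalence. -/
structure CycleTheory {𝒱 : VarClass k} {ops : CycleOps 𝒱} (W : WeilCohomology.{u, v} ops) extends
    ChowTheory.{u, v, w} 𝒱 W.K where
  /-- the cycle class map -/
  cl : ∀ X : 𝒱.Obj, A X →ₐ[W.K] W.H X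
  isClassMap : ∀ X : 𝒱.Obj, IsClassMap (gr X) (W.gr X) (deg X) (W.tr X) (cl X)
  commutes : ∀ {X Y : 𝒱.Obj} (f : X ⟶ Y),
    Commutes (pull f) (W.map f) (push f) (W.push f) (cl X) (cl Y)

end Pool.Agent.N132.IXS
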